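import Mathlib
import Pool.Agent.V11312.Dens

set_option autoImplicit false

namespace Pool.Agent.Results.MP_1da4e9_nt.NotHomogeneous

open Pool.Agent.V11312

/-- `μ` is an upper density on the set `H` of integers. A function on the power set of `H` is
represented by a function on all sets of integers, all of whose axioms concern subsets of `H`. -/
structure IsUpperDensity (H : Set ℤ) (μ : Set ℤ → ℝ) : Prop where
  /-- (F1) -/
  total : μ H = 1
  /-- (F2) monotonicity -/
  mono : ∀ X Y : Set ℤ, X ⊆ Y → Y ⊆ H → μ X ≤ μ Y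
  /-- (F3) -/
  subadd : ∀ X Y : Set ℤ, X ⊆ H → Y ⊆ H → μ (X ∪ Y) ≤ μ X + μ Y
  /-- (F4 flat) -/
  affine : ∀ X : Set ℤ, X ⊆ H → ∀ k h : ℕ, 1 ≤ k → 1 ≤ h →
    μ ((fun x : ℤ => (k : ℤ) * x + (h : ℤ)) '' X) = 1 / (k : ℝ) * μ X
  /-- values are at most one -/
  le_one : ∀ X : Set ℤ, X ⊆ H → μ X ≤ 1

/-- the lower dual `X ↦ 1 - μ(H \ X)` -/
def lowerDual (H : Set ℤ) (μ : Set ℤ → ℝ) (X : Set ℤ) : ℝ := 1 - μ (H \ X)

/-- For each of the three choices of `H` there are an upper density `μ` on `H`, a set `X ⊆ H` and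
a positive integer `k` with `μ_*(k·X) ≠ (1/k) μ_*(X)`. -/
theorem result : ∀ H : Set ℤ, (H = Set.univ ∨ H = {x : ℤ | 0 ≤ x} ∨ H = {x : ℤ | 1 ≤ x}) →
    ∃ μ : Set ℤ → ℝ, IsUpperDensity H μ ∧ ∃ X : Set ℤ, X ⊆ H ∧ ∃ k : ℕ, 1 ≤ k ∧
      lowerDual H μ ((fun x : ℤ => (k : ℤ) * x) '' X) ≠ 1 / (k : ℝ) * lowerDual H μ X := by
  intro H hH
  have hpos : ∀ x : ℤ, 1 ≤ x → x ∈ H := by
    intro x hx
    rcases hH with rfl | rfl | rfl
    · trivial
    · show 0 ≤ x; omega
    · exact hx
  have hhalf : ∀ x : ℤ, 2 * x ∈ H → x ∈ H := by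
    intro x hx
    rcases hH with rfl | rfl | rfl
    · trivial
    · have : (0 : ℤ) ≤ 2 * x := hx
      show 0 ≤ x; omega
    · have : (1 : ℤ) ≤ 2 * x := hx
      show 1 ≤ x; omega
  have hDH : D H = 1 := D_full hpos
  refine ⟨fun X => max (D X) (B X / 2), ⟨?_, ?_, ?_, ?_, ?_⟩, H \ fac, Set.sdiff_subset, 2,
    by norm_num, ?_⟩
  · have h1 := B_le_one H
    show max (D H) (B H / 2) = 1
    rw [hDH]
    apply max_eq_left
    linarith
  · intro X Y hXY _
    exact max_le_max (D_mono hXY) (by have := B_mono hXY; linarith)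
  · intro X Y _ _
    apply max_le
    · exact (D_union X Y).trans (add_le_add (le_max_left _ _) (le_max_left _ _))
    · have h1 := B_union X Y
      have h2 : B X / 2 ≤ max (D X) (B X / 2) := le_max_right _ _
      have h3 : B Y / 2 ≤ max (D Y) (B Y / 2) := le_max_right _ _
      linarith
  · intro X _ k h hk _
    show max (D (aff k h X)) (B (aff k h X) / 2) = 1 / (k : ℝ) * max (D X) (B X / 2)
    rw [D_affine X hk, B_affine X hk, mul_max_of_nonneg _ _ (by positivity : (0 : ℝ) ≤ 1 / k)]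
    congr 1
    ring
  · intro X _
    have h1 := B_le_one X
    exact max_le (D_le_one X) (by linarith)
  · have hfacH : fac ⊆ H := by
      rintro y ⟨n, rfl⟩
      apply hpos
      have : (1 : ℤ) ≤ (n.factorial : ℤ) := by exact_mod_cast Nat.factorial_pos n
      have h2 : (0 : ℤ) ≤ n := by positivity
      linarith
    have hDfac : D fac = 0 := by
      refine D_sparse (fun n => (n.factorial : ℤ) + n) ?_ ?_
      · rintro x ⟨n, rfl⟩ _
        exact ⟨n, rfl⟩
      · intro n
        have := sq_le_four_factorial n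
        have h2 : ((n : ℤ)) * n ≤ 4 * (n.factorial : ℤ) := by exact_mod_cast this
        show (n : ℤ) * n ≤ 4 * ((n.factorial : ℤ) + n)
        have h3 : (0 : ℤ) ≤ n := by positivity
        linarith
    have hBfac : B fac = 1 := by
      apply B_eq_one
      intro M r hM
      obtain ⟨n, hn⟩ := fac_meets 0 M r hM
      exact ⟨(n.factorial : ℤ) + n, ⟨n, rfl⟩, by simpa using hn⟩
    have h1 : lowerDual H (fun X => max (D X) (B X / 2)) (H \ fac) = 1 / 2 := by
      unfold lowerDual
      have e : H \ (H \ fac) = fac := by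
        rw [Set.sdiff_sdiff_right_self]
        exact Set.inter_eq_self_of_subset_right hfacH
      simp only [e]
      rw [hDfac, hBfac]
      norm_num
    have h2 : 1 / 2 ≤ lowerDual H (fun X => max (D X) (B X / 2))
        ((fun x : ℤ => ((2 : ℕ) : ℤ) * x) '' (H \ fac)) := by
      unfold lowerDual
      have hsub : H \ ((fun x : ℤ => ((2 : ℕ) : ℤ) * x) '' (H \ fac)) ⊆ AP 1 2 ∪ aff 2 0 fac := by
        rintro x ⟨hx, hx2⟩
        rcases Int.even_or_odd' x with ⟨y, hy | hy⟩
        · right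
          have hyH : y ∈ H := hhalf y (hy ▸ hx)
          by_contra hcon
          apply hx2
          refine ⟨y, ⟨hyH, fun hyf => hcon ⟨y, hyf, by show (2 : ℤ) * y + 0 = x; omega⟩⟩, ?_⟩
          show ((2 : ℕ) : ℤ) * y = x
          push_cast; omega
        · left
          exact ⟨y, by push_cast; omega⟩
      have hD : D (H \ ((fun x : ℤ => ((2 : ℕ) : ℤ) * x) '' (H \ fac))) ≤ 1 / 2 := by
        refine (D_mono hsub).trans ((D_union _ _).trans ?_)
        have e1 := D_AP 1 (m := 2) (by norm_num)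
        have e2 := D_affine fac (k := 2) (by norm_num) 0
        rw [e1]
        have e3 : D (aff 2 0 fac) = 0 := by
          have : aff ((2 : ℕ) : ℤ) 0 fac = aff 2 0 fac := by norm_num
          rw [← this, e2, hDfac, mul_zero]
        rw [e3]
        norm_num
      have hmax : ∀ Z : Set ℤ, D Z ≤ 1 / 2 → max (D Z) (B Z / 2) ≤ 1 / 2 := fun Z hZ =>
        max_le hZ (by have := B_le_one Z; linarith)
      have h3 := hmax _ hD
      show 1 / 2 ≤ 1 - max _ _
      linarith
    intro h3
    rw [h1] at h3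
    rw [h3] at h2
    norm_num at h2

end Pool.Agent.Results.MP_1da4e9_nt.NotHomogeneous
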