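import Mathlib
import Pool.Agent.V11312.Hull

set_option autoImplicit false

namespace Pool.Agent.Results.MP_1da4e9_nt.NotTranslationInvariant

open Pool.Agent.V11312

/-- `μ` is an upper quasi-density on the set `H` of integers. A function on the power set of `H`
is represented by a function on all sets of integers, all of whose axioms concern subsets of
`H`. -/
structure IsUpperQuasiDensity (H : Set ℤ) (μ : Set ℤ → ℝ) : Prop where
  /-- (F1) -/
  total : μ H = 1
  /-- (F3) -/
  subadd : ∀ X Y : Set ℤ, X ⊆ H → Y ⊆ H → μ (X ∪ Y) ≤ μ X + μ Y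
  /-- (F4 flat) -/
  affine : ∀ X : Set ℤ, X ⊆ H → ∀ k h : ℕ, 1 ≤ k → 1 ≤ h →
    μ ((fun x : ℤ => (k : ℤ) * x + (h : ℤ)) '' X) = 1 / (k : ℝ) * μ X
  /-- values are at most one -/
  le_one : ∀ X : Set ℤ, X ⊆ H → μ X ≤ 1

/-- the lower dual `X ↦ 1 - μ(H \ X)` -/
def lowerDual (H : Set ℤ) (μ : Set ℤ → ℝ) (X : Set ℤ) : ℝ := 1 - μ (H \ X)

/-- `ν` is translation invariant on `H`: `ν (X + h) = ν X` for all `X ⊆ H`, `h ∈ ℕ`. -/
def IsTranslationInvariant (H : Set ℤ) (ν : Set ℤ → ℝ) : Prop :=
  ∀ X : Set ℤ, X ⊆ H → ∀ h : ℕ, ν ((fun x : ℤ => x + (h : ℤ)) '' X) = ν X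

theorem fac_pos {y : ℤ} (hy : y ∈ fac) : 1 ≤ y := by
  obtain ⟨n, rfl⟩ := hy
  have h1 : (1 : ℤ) ≤ (n.factorial : ℤ) := by exact_mod_cast Nat.factorial_pos n
  have h2 : (0 : ℤ) ≤ n := by positivity
  linarith

/-- the special set `{0} ∪ {n! + n}` -/
def G (_ : Unit) : Set ℤ := insert 0 fac

theorem D_G (i : Unit) : D (G i) ≤ 0 := by
  refine le_of_eq (D_sparse (fun n => (n.factorial : ℤ) + n) ?_ ?_)
  · rintro x (rfl | ⟨n, rfl⟩) hx1
    · omega
    · exact ⟨n, rfl⟩
  · intro n
    have h2 : ((n : ℤ)) * n ≤ 4 * (n.factorial : ℤ) := by exact_mod_cast sq_le_four_factorial n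
    show (n : ℤ) * n ≤ 4 * ((n.factorial : ℤ) + n)
    have h3 : (0 : ℤ) ≤ n := by positivity
    linarith

theorem G_consecutive (i : Unit) : ∃ g : ℤ, g ∈ G i ∧ g + 1 ∈ G i :=
  ⟨0, Or.inl rfl, Or.inr ⟨0, by simp⟩⟩

/-- no affine image of the special set is contained in a translate of `{n! + n}` -/
theorem no_special (b : ℤ) (i : Unit) (a : ℕ) (c : ℤ) (ha : 1 ≤ a) :
    ¬ aff (a : ℤ) c (G i) ⊆ aff 1 (b - 1) fac := by
  intro hsub
  have hc : c ∈ aff 1 (b - 1) fac := hsub ⟨0, Or.inl rfl, by ring⟩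
  obtain ⟨y, hy, hyc⟩ := hc
  have hyc' : 1 * y + (b - 1) = c := hyc
  have hy1 := fac_pos hy
  obtain ⟨c1, rfl⟩ : ∃ c1 : ℕ, y = (c1 : ℤ) := ⟨y.toNat, by omega⟩
  have hc1 : 1 ≤ c1 := by omega
  set n := a + c1 + 2 with hn
  have hmem : (a : ℤ) * ((n.factorial : ℤ) + n) + c ∈ aff 1 (b - 1) fac :=
    hsub ⟨(n.factorial : ℤ) + n, Or.inr ⟨n, rfl⟩, rfl⟩
  obtain ⟨z, ⟨m, rfl⟩, hz⟩ := hmem
  have hz' : 1 * ((m.factorial : ℤ) + m) + (b - 1) = (a : ℤ) * ((n.factorial : ℤ) + n) + c := hz
  have h1 : m.factorial + m = a * (n.factorial + n) + c1 := by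
    have : ((m.factorial + m : ℕ) : ℤ) = ((a * (n.factorial + n) + c1 : ℕ) : ℤ) := by
      push_cast
      linarith
    exact_mod_cast this
  have hmn : n < m := by
    by_contra hle
    push Not at hle
    have h2 : m.factorial ≤ n.factorial := Nat.factorial_le hle
    have h3 : 1 * (n.factorial + n) ≤ a * (n.factorial + n) := Nat.mul_le_mul_right _ ha
    omega
  have h2 : (n + 1).factorial ≤ m.factorial := Nat.factorial_le hmn
  rw [Nat.factorial_succ] at h2
  have h3 : n * a ≤ n.factorial := by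
    have h4 : n = (n - 1) + 1 := by omega
    have h5 : n - 1 ≤ (n - 1).factorial := Nat.self_le_factorial _
    rw [h4, Nat.factorial_succ, ← h4]
    exact Nat.mul_le_mul_left _ (by omega)
  have h4 : (n + 1) * n.factorial = a * n.factorial + (c1 + 3) * n.factorial := by
    rw [← add_mul]; congr 1
  have h5 : c1 * 1 ≤ c1 * n.factorial := Nat.mul_le_mul_left _ (Nat.factorial_pos n)
  have h6 : (c1 + 3) * n.factorial = c1 * n.factorial + 3 * n.factorial := by ring
  have h7 : a * (n.factorial + n) = a * n.factorial + n * a := by ring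
  have h8 := Nat.factorial_pos n
  omega

/-- Every lower quasi-density on `ℤ` is translation invariant, whereas on each of `ℕ` and `ℕ⁺`
there is a lower quasi-density that is not translation invariant. -/
theorem result :
    (∀ μ : Set ℤ → ℝ, IsUpperQuasiDensity Set.univ μ →
      IsTranslationInvariant Set.univ (lowerDual Set.univ μ)) ∧
    (∀ H : Set ℤ, (H = {x : ℤ | 0 ≤ x} ∨ H = {x : ℤ | 1 ≤ x}) →
      ∃ μ : Set ℤ → ℝ, IsUpperQuasiDensity H μ ∧ ¬ IsTranslationInvariant H (lowerDual H μ)) := by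
  constructor
  · intro μ hμ X _ h
    unfold lowerDual
    rcases Nat.eq_zero_or_pos h with rfl | hpos
    · simp
    · congr 1
      have e : (Set.univ : Set ℤ) \ ((fun x : ℤ => x + (h : ℤ)) '' X) =
          (fun x : ℤ => ((1 : ℕ) : ℤ) * x + (h : ℤ)) '' (Set.univ \ X) := by
        ext y
        constructor
        · rintro ⟨_, hy⟩
          refine ⟨y - h, ⟨trivial, fun hx => hy ⟨y - h, hx, by ring⟩⟩, ?_⟩
          show ((1 : ℕ) : ℤ) * (y - h) + h = y
          push_cast; ring
        · rintro ⟨x, ⟨_, hx⟩, rfl⟩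
          refine ⟨trivial, ?_⟩
          rintro ⟨x', hx', he⟩
          have he' : x' + (h : ℤ) = ((1 : ℕ) : ℤ) * x + h := he
          have : x' = x := by push_cast at he'; linarith
          exact hx (this ▸ hx')
      rw [e, hμ.affine _ (Set.subset_univ _) 1 h le_rfl hpos]
      norm_num
  · intro H hH
    obtain ⟨b, hb, rfl⟩ : ∃ b : ℤ, (b = 0 ∨ b = 1) ∧ H = {x : ℤ | b ≤ x} := by
      rcases hH with rfl | rfl
      · exact ⟨0, Or.inl rfl, rfl⟩
      · exact ⟨1, Or.inr rfl, rfl⟩
    have hw : ∀ i : Unit, (0 : ℝ) ≤ (fun _ : Unit => (0 : ℝ)) i := fun _ => le_rfl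
    have hpos : ∀ x : ℤ, 1 ≤ x → x ∈ {x : ℤ | b ≤ x} := by
      intro x hx
      show b ≤ x
      omega
    refine ⟨hull G (fun _ => 0), ⟨?_, ?_, ?_, ?_⟩, ?_⟩
    · exact hull_full G hw D_G hpos
    · intro X Y _ _
      exact hull_union G hw X Y
    · intro X _ k h hk _
      exact hull_affine G hw G_consecutive X hk h
    · intro X _
      exact hull_le_one G hw X
    · intro hinv
      -- the set
      set X : Set ℤ := {x : ℤ | b ≤ x ∧ x + 1 - b ∉ G ()} with hX
      have h1 := hinv X (fun x hx => hx.1) 1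
      have e1 : {x : ℤ | b ≤ x} \ ((fun x : ℤ => x + ((1 : ℕ) : ℤ)) '' X) = aff 1 b (G ()) := by
        ext y
        constructor
        · rintro ⟨hy, hyX⟩
          have hy' : b ≤ y := hy
          by_contra hcon
          have hyb : y ≠ b := by
            intro h
            apply hcon
            exact ⟨0, Or.inl rfl, by show (1 : ℤ) * 0 + b = y; omega⟩
          apply hyX
          refine ⟨y - 1, ⟨by omega, ?_⟩, by push_cast; ring⟩
          intro h
          apply hcon
          exact ⟨y - 1 + 1 - b, h, by show (1 : ℤ) * (y - 1 + 1 - b) + b = y; ring⟩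
        · rintro ⟨g, hg, rfl⟩
          have hg0 : 0 ≤ g := by
            rcases hg with rfl | hg
            · exact le_rfl
            · have := fac_pos hg; omega
          refine ⟨by show b ≤ 1 * g + b; omega, ?_⟩
          rintro ⟨x, ⟨hx1, hx2⟩, he⟩
          apply hx2
          have he' : x + ((1 : ℕ) : ℤ) = 1 * g + b := he
          have : x + 1 - b = g := by push_cast at he'; omega
          rw [this]
          exact hg
      have e2 : {x : ℤ | b ≤ x} \ X = aff 1 (b - 1) fac := by
        ext y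
        constructor
        · rintro ⟨hy, hyX⟩
          have hy' : b ≤ y := hy
          have h2 : y + 1 - b ∈ G () := by
            by_contra hcon
            exact hyX ⟨hy', hcon⟩
          rcases h2 with h2 | h2
          · omega
          · exact ⟨y + 1 - b, h2, by show (1 : ℤ) * (y + 1 - b) + (b - 1) = y; ring⟩
        · rintro ⟨g, hg, rfl⟩
          have hg1 := fac_pos hg
          refine ⟨by show b ≤ 1 * g + (b - 1); omega, ?_⟩
          rintro ⟨_, hx2⟩
          apply hx2
          right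
          have : 1 * g + (b - 1) + 1 - b = g := by ring
          show 1 * g + (b - 1) + 1 - b ∈ fac
          rw [this]
          exact hg
      unfold lowerDual at h1
      rw [e1, e2] at h1
      have h2 : hull G (fun _ => 0) (aff 1 b (G ())) ≤ 0 :=
        hull_special G (w := fun _ => 0) hw () b
      have h3 : hull G (fun _ => 0) (aff 1 (b - 1) fac) = 1 := by
        rw [hull_eq_B G hw (fun i a c ha => no_special b i a c ha)]
        apply B_eq_one
        intro M r hM
        obtain ⟨n, hn⟩ := fac_meets (b - 1) M r hM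
        refine ⟨1 * ((n.factorial : ℤ) + n) + (b - 1), ⟨_, ⟨n, rfl⟩, rfl⟩, ?_⟩
        rw [one_mul]
        exact hn
      rw [h3] at h1
      linarith

end Pool.Agent.Results.MP_1da4e9_nt.NotTranslationInvariant
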